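import Mathlib
import Pool.Agent.H29.Ker

namespace Pool.Agent.Results.MP_72b8ed_an.Counter

open Set Filter Topology Pool.Agent.H29
open scoped ComplexConjugate ComplexOrder

/-- `f` is positive semidefinite on `Ω × Ω`. -/
def IsKer (Ω : Set ℂ) (f : ℂ → ℂ → ℂ) : Prop := (Matrix.of fun z w : Ω => f z w).PosSemidef

/-- Holomorphic in `z`, antiholomorphic in `w`. -/
def Holo (Ω : Set ℂ) (f : ℂ → ℂ → ℂ) : Prop :=
  (∀ w ∈ Ω, DifferentiableOn ℂ (fun z => f z w) Ω) ∧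
    ∀ z ∈ Ω, DifferentiableOn ℂ (fun w => conj (f z w)) Ω

/-- `f(z,w) = ∑ c_n z^n \bar w^n` near the origin. -/
def Expands (f : ℂ → ℂ → ℂ) (c : ℕ → ℝ) : Prop :=
  ∀ᶠ p : ℂ × ℂ in 𝓝 (0, 0), HasSum (fun n => (c n : ℂ) * (p.1 ^ n * conj p.2 ^ n)) (f p.1 p.2)

/-- `k` is a normalized diagonal holomorphic kernel on `Ω` with coefficients `c`. -/
def NormDiag (Ω : Set ℂ) (k : ℂ → ℂ → ℂ) (c : ℕ → ℝ) : Prop :=
  IsKer Ω k ∧ Holo Ω k ∧ Expands k c ∧ c 0 = 1 ∧ ∀ n, 0 < c n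

/-- `θ` is the master certificate of the coefficients `c`. -/
def IsMaster (c θ : ℕ → ℝ) : Prop :=
  θ 0 = 0 ∧ θ 1 = c 1 ∧ ∀ b, 2 ≤ b → θ b = max 0 (c b - ∑ u ∈ Finset.Ioo 0 b, θ u * c (b - u))

/-- The set `Ω¹_θ`. -/
def Om1 (θ : ℕ → ℝ) : Set ℂ :=
  {x | x ∈ interior {y : ℂ | BddAbove (range fun b => θ b * ‖y‖ ^ (2 * b))} ∧
    ∑' b, ENNReal.ofReal (θ b * ‖x‖ ^ (2 * b)) < 1}

/-- `s` is a complete Pick kernel on `Ω` normalized at `0`. -/
def NormCP (Ω : Set ℂ) (s : ℂ → ℂ → ℂ) : Prop :=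
  IsKer Ω s ∧ (∀ z ∈ Ω, s z 0 = 1) ∧ (∀ z ∈ Ω, ∀ w ∈ Ω, s z w ≠ 0) ∧
    IsKer Ω fun z w => 1 - 1 / s z w

def Om : Set ℂ := Metric.ball 0 √(1 / 2)
noncomputable def kk (z w : ℂ) : ℂ := (1 - z * conj w) / (1 - 2 * (z * conj w))
noncomputable def ps (z : ℂ) : ℂ := z * (1 + z) / 2
noncomputable def hh (z w : ℂ) : ℂ := ps z * conj (ps w)
noncomputable def ss (z w : ℂ) : ℂ := kk z w * (1 - hh z w)⁻¹
noncomputable def cc (n : ℕ) : ℝ := (if n = 0 then 1 / 2 else 0) + 2 ^ n / 2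
noncomputable def th (n : ℕ) : ℝ := if n = 0 then 0 else 1

lemma sq_lt {z : ℂ} (hz : z ∈ Om) : ‖z‖ ^ 2 < 1 / 2 := by
  have : ‖z‖ < √(1 / 2) := by simpa [Om] using hz
  exact (Real.lt_sqrt (norm_nonneg _)).1 this

lemma x_lt {z w : ℂ} (hz : z ∈ Om) (hw : w ∈ Om) : ‖z * conj w‖ < 1 / 2 := by
  rw [norm_mul, Complex.norm_conj]
  nlinarith [sq_lt hz, sq_lt hw, sq_nonneg (‖z‖ - ‖w‖)]

lemma ps_lt {z : ℂ} (hz : z ∈ Om) : ‖ps z‖ < 1 := by
  have h1 := sq_lt hz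
  have h2 : ‖1 + z‖ ≤ 1 + ‖z‖ := by simpa using norm_add_le 1 z
  have h3 : ‖z‖ < 1 := by nlinarith [norm_nonneg z]
  simp only [ps, norm_div, norm_mul, Complex.norm_ofNat]
  nlinarith [mul_le_mul_of_nonneg_left h2 (norm_nonneg z)]

lemma h_lt {z w : ℂ} (hz : z ∈ Om) (hw : w ∈ Om) : ‖hh z w‖ < 1 := by
  rw [hh, norm_mul, Complex.norm_conj]
  nlinarith [ps_lt hz, ps_lt hw, norm_nonneg (ps z), norm_nonneg (ps w)]

lemma ne1 {a : ℂ} (h : ‖a‖ < 1) : 1 - a ≠ 0 := fun e => by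
  rw [← sub_eq_zero.1 e] at h; simp at h

lemma x2 {z w : ℂ} (hz : z ∈ Om) (hw : w ∈ Om) : ‖2 * (z * conj w)‖ < 1 := by
  rw [norm_mul, Complex.norm_ofNat]; linarith [x_lt hz hw]

lemma x1 {z w : ℂ} (hz : z ∈ Om) (hw : w ∈ Om) : ‖z * conj w‖ < 1 := by linarith [x_lt hz hw]

lemma Kx : Ker.K fun z w : Om => (z : ℂ) * conj (w : ℂ) := Ker.dyad fun z : Om => (z : ℂ)

lemma Kk : Ker.K fun z w : Om => kk z w := by
  have h1 : Ker.K fun z w : Om => 2 * ((z : ℂ) * conj (w : ℂ)) :=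
    ((Ker.const (t := 2) (by norm_num)).mul Kx).congr fun _ _ => by simp
  refine ((Ker.const (t := 1 / 2) (by norm_num)).add ((Ker.const (t := 1 / 2) (by norm_num)).mul
    (h1.geom fun z w => x2 z.2 w.2))).congr fun z w => ?_
  have := ne1 (x2 z.2 w.2)
  unfold kk; push_cast
  generalize (z : ℂ) * conj (w : ℂ) = x at this ⊢
  field_simp; ring

lemma Kh : Ker.K fun z w : Om => hh z w := Ker.dyad fun z : Om => ps z

lemma holo_k (a : ℂ) (ha : a ∈ Om) :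
    DifferentiableOn ℂ (fun z => (1 - z * conj a) / (1 - 2 * (z * conj a))) Om :=
  DifferentiableOn.div (by fun_prop) (by fun_prop) fun _ hz => ne1 (x2 hz ha)

lemma holo_s (a : ℂ) (ha : a ∈ Om) : DifferentiableOn ℂ (fun z => ss z a) Om :=
  (holo_k a ha).mul (DifferentiableOn.inv (by unfold hh ps; fun_prop) fun _ hz => ne1 (h_lt hz ha))

lemma zero_mem : (0 : ℂ) ∈ Om := by simp [Om]

lemma master : IsMaster cc th := by
  refine ⟨by simp [th], by norm_num [th, cc], fun b hb => ?_⟩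
  have : ∀ m : ℕ, ∑ u ∈ Finset.Ioo 0 (m + 1), th u * cc (m + 1 - u) = 2 ^ m - 1 := by
    intro m
    have e : ∑ u ∈ Finset.Ioo 0 (m + 1), th u * cc (m + 1 - u) = ∑ j ∈ Finset.range m, (2 : ℝ) ^ j := by
      refine Finset.sum_bij' (fun u _ => m - u) (fun j _ => m - j) ?_ ?_ ?_ ?_ ?_
      · intro u hu; simp at hu ⊢; omega
      · intro u hu; simp at hu ⊢; omega
      · intro u hu; simp at hu ⊢; omega
      · intro u hu; simp at hu ⊢; omega
      · intro u hu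
        simp only [Finset.mem_Ioo] at hu
        have e1 : m + 1 - u = m - u + 1 := by omega
        simp [th, cc, e1, hu.1.ne', pow_succ]
    rw [e, geom_sum_eq (by norm_num)]; norm_num
  obtain ⟨m, rfl⟩ : ∃ m, b = m + 1 := ⟨b - 1, by omega⟩
  rw [this]
  simp [th, cc, pow_succ]

theorem result : ∃ (Ω : Set ℂ) (k h s : ℂ → ℂ → ℂ) (c θ : ℕ → ℝ),
    IsOpen Ω ∧ IsConnected Ω ∧ 0 ∈ Ω ∧ NormDiag Ω k c ∧ IsMaster c θ ∧ Om1 θ ⊆ Ω ∧
    IsKer Ω h ∧ NormCP Ω s ∧ Holo Ω s ∧ (∀ z ∈ Ω, ∀ w ∈ Ω, k z w = (1 - h z w) * s z w) ∧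
    ¬ ∃ d, Expands s d := by
  have hO : IsOpen Om := Metric.isOpen_ball
  have hn : ∀ᶠ p : ℂ × ℂ in 𝓝 (0, 0), p.1 ∈ Om ∧ p.2 ∈ Om :=
    (hO.prod hO).mem_nhds ⟨zero_mem, zero_mem⟩
  refine ⟨Om, kk, hh, ss, cc, th, hO, ⟨⟨0, zero_mem⟩, (convex_ball _ _).isPreconnected⟩, zero_mem,
    ⟨Kk, ⟨holo_k, fun z hz => ?_⟩, ?_, by norm_num [cc], fun n => ?_⟩, master, fun x hx => ?_, Kh,
    ⟨Kk.mul (Kh.geom fun z w => h_lt z.2 w.2), fun z _ => by simp [ss, kk, hh, ps],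
      fun z hz w hw => ?_, ?_⟩, ⟨holo_s, fun z hz => ?_⟩, fun z hz w hw => ?_, ?_⟩
  · refine (holo_k z hz).congr fun w _ => ?_
    simp [kk, mul_comm, map_ofNat]
  · filter_upwards [hn] with p hp
    have h1 := ((hasSum_ite_eq 0 (1 / 2 : ℂ)).add
      ((hasSum_geometric_of_norm_lt_one (x2 hp.1 hp.2)).div_const 2))
    have := ne1 (x2 hp.1 hp.2)
    convert h1 using 1
    · funext n
      unfold cc
      split_ifs with h
      · subst h; norm_num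
      · push_cast; ring
    · unfold kk
      rw [div_eq_iff this]
      linear_combination (-1 / 2 : ℂ) * inv_mul_cancel₀ this
  · unfold cc; split_ifs <;> positivity
  · by_contra hc
    have h1 : 1 / 2 ≤ ‖x‖ ^ 2 := by
      have : √(1 / 2) ≤ ‖x‖ := by simpa [Om] using hc
      exact (Real.sqrt_le_left (norm_nonneg _)).1 this
    have h2 : HasSum (fun b : ℕ => th b * (1 / 2) ^ b) 1 := by
      rw [← hasSum_nat_add_iff' 1]
      have := hasSum_geometric_two.mul_left (1 / 2 : ℝ)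
      simpa [th, pow_succ, mul_comm] using this
    have h3 : ∀ b, 0 ≤ th b := fun b => by unfold th; split_ifs <;> norm_num
    have h4 := ENNReal.ofReal_tsum_of_nonneg (fun b => mul_nonneg (h3 b) (by positivity))
      h2.summable
    rw [h2.tsum_eq, ENNReal.ofReal_one] at h4
    refine absurd hx.2 (not_lt.2 (h4.le.trans (ENNReal.tsum_le_tsum fun b =>
      ENNReal.ofReal_le_ofReal (mul_le_mul_of_nonneg_left ?_ (h3 b)))))
    rw [pow_mul]
    exact pow_le_pow_left₀ (by norm_num) h1 b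
  · exact mul_ne_zero (div_ne_zero (ne1 (x1 hz hw)) (ne1 (x2 hz hw))) (inv_ne_zero (ne1 (h_lt hz hw)))
  · refine (Kh.add (Kx.mul (((Ker.const (t := 1) (by norm_num)).add
      ((Ker.const (t := 1 / 2) (by norm_num)).mul Kx)).add
      (((Ker.const (t := 1 / 4) (by norm_num)).mul Kx).mul
        ((Ker.dyad fun z : Om => 1 - (z : ℂ)).mul (Kx.geom fun z w => x1 z.2 w.2)))))).congr
      fun z w => ?_
    have a1 := ne1 (x1 z.2 w.2)
    have a2 := ne1 (x2 z.2 w.2)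
    have a3 := ne1 (h_lt z.2 w.2)
    simp only [ss, kk, one_div, mul_inv, inv_inv, inv_div]
    simp only [hh, ps, map_div₀, map_mul, map_add, map_one, map_sub, map_ofNat]
    push_cast
    field_simp
    ring
  · refine (holo_s z hz).congr fun w _ => ?_
    simp [ss, kk, hh, mul_comm, map_ofNat]
  · have := ne1 (h_lt hz hw)
    unfold ss; field_simp
  · rintro ⟨d, hd⟩
    have t1 : Tendsto (fun t : ℝ => ((t : ℂ), (t : ℂ))) (𝓝[>] 0) (𝓝 (0, 0)) :=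
      Tendsto.mono_left (Continuous.tendsto' (by fun_prop) _ _ (by simp)) nhdsWithin_le_nhds
    have t2 : Tendsto (fun t : ℝ => (-(t : ℂ), -(t : ℂ))) (𝓝[>] 0) (𝓝 (0, 0)) :=
      Tendsto.mono_left (Continuous.tendsto' (by fun_prop) _ _ (by simp)) nhdsWithin_le_nhds
    obtain ⟨t, ⟨⟨a1, a2⟩, a3⟩, a4⟩ := ((((t1.eventually hd).and (t2.eventually hd)).and
      (t1.eventually hn)).and self_mem_nhdsWithin).exists
    simp only [map_neg, ← mul_pow, neg_mul_neg] at a1 a2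
    have e := a1.unique a2
    have b : kk (t : ℂ) t ≠ 0 := div_ne_zero (ne1 (x1 a3.1 a3.1)) (ne1 (x2 a3.1 a3.1))
    have e1 : kk (-(t : ℂ)) (-t) = kk t t := by simp [kk]
    rw [ss, ss, e1] at e
    have e2 := sub_right_injective (inv_injective (mul_left_cancel₀ b e))
    simp only [hh, ps, map_div₀, map_mul, map_add, map_one, map_neg, map_ofNat,
      Complex.conj_ofReal] at e2
    have e3 : (t : ℂ) ^ 3 = 0 := by linear_combination e2
    have : (t : ℂ) = 0 := pow_eq_zero_iff (by norm_num) |>.1 e3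
    exact (mem_Ioi.1 a4).ne' (by exact_mod_cast this)

end Pool.Agent.Results.MP_72b8ed_an.Counter
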